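import Pool.Agent.H41.CO.Defs

set_option autoImplicit false

/-!
# Cycles of pure points are long
-/

namespace Pool.Agent.H274.CO

open Equiv
open Pool.Agent.H41.CO (S_PURE)

theorem pure_long : S_PURE := by
  intro V _ p f c τ x hp hc h m n hm hn hmn
  have : Fact p.Prime := ⟨hp⟩
  have h1 : ∀ k : ℕ, f ((τ ^ k) x) = f x + (k : ZMod p) * c := by
    intro k
    induction k with
    | zero => simp
    | succ k ih =>
      have h2 : τ.SameCycle x ((τ ^ k) x) := ⟨(k : ℤ), by rw [zpow_natCast]⟩
      rw [pow_succ', Perm.mul_apply, h _ h2, ih]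
      push_cast
      ring
  have h2 : (m : ZMod p) * c = (n : ZMod p) * c := by
    have h3 := congrArg f hmn
    rw [h1, h1] at h3
    exact add_left_cancel h3
  have h3 : (m : ZMod p) = (n : ZMod p) := mul_right_cancel₀ hc h2
  have h4 := (ZMod.natCast_eq_natCast_iff' m n p).1 h3
  rwa [Nat.mod_eq_of_lt hm, Nat.mod_eq_of_lt hn] at h4

end Pool.Agent.H274.CO
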